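import Mathlib

/-!
# The minimum cost of fast contract-signing protocols is `4 N - 6`

Lower bound. Let `Q t n` be the party which holds contract `n` on day `t`, let `W t` be the space of
the functions `g ∘ Q t` on the set of contracts, and let `c t` be the number of envelopes sent on day
`t`. Then `dim (W t + W (t + 1)) ≤ c t` and `dim (W t) ≥ 2` for `t ≤ N - 2`. Since contract `m ≠ n`
visits party `n` exactly once before the last day, `∑_{t ≤ N - 2} 1_{Q t = n} = 1 - e_n`, so that the
spaces `W 0, …, W (N - 2)` span the whole space. So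
`N ≤ dim (W 0) + ∑_{t < N - 2} (c t - dim (W t)) ≤ ∑_{t < N - 2} c t - 2 (N - 3)`, and
`c (N - 2) = N`.
-/

set_option autoImplicit false

namespace Pool.Agent.Results.MP_6fb3b3_lc.MinimumCost

open Finset

/-- A fast protocol for `N` parties: `P n d` is the party which holds contract `n` on day `d`,
`0 ≤ d ≤ N - 1`; every `P n` is a permutation, and contract `n` is held by party `n` on day
`N - 1`. -/
def IsFast {N : ℕ} (P : Fin N → Equiv.Perm (Fin N)) : Prop :=
  ∀ n d : Fin N, (d : ℕ) = N - 1 → P n d = n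

/-- The cost of a protocol: the number of triples `(d, i, j)`, `0 ≤ d ≤ N - 2`, such that
`P n d = i` and `P n (d + 1) = j` for at least one contract `n`. -/
noncomputable def cost {N : ℕ} (P : Fin N → Equiv.Perm (Fin N)) : ℕ :=
  {q : Fin N × Fin N × Fin N | ∃ (h : (q.1 : ℕ) + 1 < N) (n : Fin N),
    P n q.1 = q.2.1 ∧ P n ⟨(q.1 : ℕ) + 1, h⟩ = q.2.2}.ncard

/-- `CFP(N)`: the minimum cost of a fast protocol for `N` parties. -/
noncomputable def CFP (N : ℕ) : ℕ :=
  sInf {c : ℕ | ∃ P : Fin N → Equiv.Perm (Fin N), IsFast P ∧ cost P = c}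

section

variable {N : ℕ} (P : Fin N → Equiv.Perm (Fin N))

/-- position of contract `n` on day `t` -/
def Q (t : ℕ) (n : Fin N) : Fin N := if h : t < N then P n ⟨t, h⟩ else n

/-- the number of envelopes sent on day `t` -/
def c (t : ℕ) : ℕ := (univ.image (fun n : Fin N => (Q P t n, Q P (t + 1) n))).card

lemma cost_eq : cost P = ∑ t ∈ range (N - 1), c P t := by
  classical
  let F : Finset (Σ _ : ℕ, Fin N × Fin N) :=
    (range (N - 1)).sigma (fun t => univ.image (fun n : Fin N => (Q P t n, Q P (t + 1) n)))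
  have hF : F.card = ∑ t ∈ range (N - 1), c P t := Finset.card_sigma _ _
  rw [← hF]
  let φ : Fin N × Fin N × Fin N → (Σ _ : ℕ, Fin N × Fin N) := fun q => ⟨(q.1 : ℕ), q.2⟩
  have hφ : Function.Injective φ := by
    rintro ⟨d, p⟩ ⟨d', p'⟩ h
    simp only [φ, Sigma.mk.injEq, heq_eq_eq] at h
    exact Prod.ext (Fin.ext h.1) h.2
  unfold cost
  rw [← Set.ncard_image_of_injective _ hφ, ← Set.ncard_coe_finset F]
  congr 1
  ext ⟨t, i, j⟩
  simp only [Set.mem_image, Set.mem_ofPred_eq, Prod.exists, coe_sigma, coe_range, Set.mem_sigma_iff,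
    Set.mem_Iio, coe_image, coe_univ, Set.image_univ, Set.mem_range, Prod.mk.injEq, F, φ,
    Sigma.mk.injEq, heq_eq_eq]
  constructor
  · rintro ⟨d, i', j', ⟨h, n, h1, h2⟩, rfl, rfl, rfl⟩
    refine ⟨by omega, n, ?_, ?_⟩
    · unfold Q
      rw [dif_pos d.2]
      exact h1
    · unfold Q
      rw [dif_pos h]
      exact h2
  · rintro ⟨h, n, h1, h2⟩
    have ht : t < N := by omega
    have ht2 : t + 1 < N := by omega
    refine ⟨⟨t, ht⟩, i, j, ⟨ht2, n, ?_, ?_⟩, rfl, rfl, rfl⟩
    · unfold Q at h1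
      rw [dif_pos ht] at h1
      exact h1
    · unfold Q at h2
      rw [dif_pos ht2] at h2
      exact h2

/-- The functions of the form `g ∘ f`. -/
noncomputable def Wf {β : Type} (f : Fin N → β) : Submodule ℝ (Fin N → ℝ) :=
  LinearMap.range (LinearMap.funLeft ℝ ℝ f)

lemma mem_Wf {β : Type} (f : Fin N → β) (v : Fin N → ℝ) : v ∈ Wf f ↔ ∃ g : β → ℝ, g ∘ f = v := by
  unfold Wf
  rw [LinearMap.mem_range]
  rfl

lemma finrank_Wf_le {β : Type} [DecidableEq β] (f : Fin N → β) :
    Module.finrank ℝ (Wf f) ≤ (univ.image f).card := by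
  let f' : Fin N → ↥(univ.image f) := fun n => ⟨f n, mem_image_of_mem f (mem_univ n)⟩
  have h1 : Wf f ≤ LinearMap.range (LinearMap.funLeft ℝ ℝ f') := by
    intro v hv
    obtain ⟨g, rfl⟩ := (mem_Wf f v).1 hv
    exact ⟨fun b => g b.1, rfl⟩
  refine (Submodule.finrank_mono h1).trans ?_
  refine (LinearMap.finrank_range_le _).trans ?_
  simp

/-- `W t` -/
noncomputable def W (t : ℕ) : Submodule ℝ (Fin N → ℝ) := Wf (Q P t)

lemma W_sup_le (t : ℕ) : Module.finrank ℝ (W P t ⊔ W P (t + 1) : Submodule ℝ (Fin N → ℝ)) ≤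
    c P t := by
  have h1 : W P t ⊔ W P (t + 1) ≤ Wf (fun n : Fin N => (Q P t n, Q P (t + 1) n)) := by
    rw [sup_le_iff]
    constructor
    · intro v hv
      obtain ⟨g, rfl⟩ := (mem_Wf _ v).1 hv
      exact (mem_Wf _ _).2 ⟨fun b => g b.1, rfl⟩
    · intro v hv
      obtain ⟨g, rfl⟩ := (mem_Wf _ v).1 hv
      exact (mem_Wf _ _).2 ⟨fun b => g b.2, rfl⟩
  exact (Submodule.finrank_mono h1).trans (finrank_Wf_le _)

/-- `V t = W 0 + ⋯ + W t` -/
noncomputable def V (t : ℕ) : Submodule ℝ (Fin N → ℝ) := ⨆ s ∈ Set.Iic t, W P s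

lemma W_le_V {s t : ℕ} (h : s ≤ t) : W P s ≤ V P t := by
  unfold V
  exact le_iSup₂_of_le s h le_rfl

lemma V_zero : V P 0 = W P 0 := by
  unfold V
  apply le_antisymm
  · refine iSup₂_le fun s hs => ?_
    have : s = 0 := Nat.le_zero.1 hs
    rw [this]
  · exact le_iSup₂_of_le 0 (Set.mem_Iic.2 le_rfl) le_rfl

lemma V_succ (t : ℕ) : V P (t + 1) = V P t ⊔ W P (t + 1) := by
  apply le_antisymm
  · unfold V
    refine iSup₂_le fun s hs => ?_
    rcases Nat.lt_or_ge s (t + 1) with h | h
    · exact le_sup_of_le_left (le_iSup₂_of_le s (Set.mem_Iic.2 (by omega)) le_rfl)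
    · have : s = t + 1 := le_antisymm hs h
      rw [this]
      exact le_sup_right
  · refine sup_le ?_ (W_le_V P le_rfl)
    unfold V
    refine iSup₂_le fun s hs => ?_
    have hs' : s ≤ t := hs
    exact le_iSup₂_of_le s (Set.mem_Iic.2 (by omega)) le_rfl

lemma step (t : ℕ) : Module.finrank ℝ (V P (t + 1)) + Module.finrank ℝ (W P t) ≤
    Module.finrank ℝ (V P t) + c P t := by
  have h1 := Submodule.finrank_sup_add_finrank_inf_eq (V P t) (W P (t + 1))
  have h2 := Submodule.finrank_sup_add_finrank_inf_eq (W P t) (W P (t + 1))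
  have h3 : Module.finrank ℝ (W P t ⊓ W P (t + 1) : Submodule ℝ (Fin N → ℝ)) ≤
      Module.finrank ℝ (V P t ⊓ W P (t + 1) : Submodule ℝ (Fin N → ℝ)) :=
    Submodule.finrank_mono (inf_le_inf_right _ (W_le_V P le_rfl))
  have h4 := W_sup_le P t
  rw [← V_succ] at h1
  omega

lemma sum_step (t : ℕ) : Module.finrank ℝ (V P t) + ∑ s ∈ range t, Module.finrank ℝ (W P s) ≤
    Module.finrank ℝ (W P 0) + ∑ s ∈ range t, c P s := by
  induction t with
  | zero =>
    rw [Finset.sum_range_zero, Finset.sum_range_zero, V_zero]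
  | succ t ih =>
    rw [Finset.sum_range_succ, Finset.sum_range_succ]
    have := step P t
    omega

variable (hP : IsFast P)

include hP

lemma Q_ne (n : Fin N) (t : ℕ) (ht : t + 1 < N) : Q P t n ≠ n := by
  unfold Q
  rw [dif_pos (by omega)]
  intro h
  have hl : N - 1 < N := by omega
  have h1 := hP n ⟨N - 1, hl⟩ rfl
  have h2 := (P n).injective (h.trans h1.symm)
  have h3 := congrArg Fin.val h2
  simp only at h3
  omega

lemma W_two (t : ℕ) (ht : t + 1 < N) : 2 ≤ Module.finrank ℝ (W P t) := by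
  obtain ⟨n₀⟩ : Nonempty (Fin N) := ⟨⟨0, by omega⟩⟩
  obtain ⟨p, hp⟩ : ∃ p, p = Q P t n₀ := ⟨_, rfl⟩
  let u : Fin 2 → (Fin N → ℝ) := ![fun _ => 1, fun n => if Q P t n = p then 1 else 0]
  have hu : ∀ i, u i ∈ W P t := by
    intro i
    fin_cases i
    · exact (mem_Wf _ _).2 ⟨fun _ => 1, rfl⟩
    · exact (mem_Wf _ _).2 ⟨fun b => if b = p then 1 else 0, rfl⟩
  have hli : LinearIndependent ℝ u := by
    rw [LinearIndependent.pair_iff]
    intro s r h
    have h1 := congrFun h n₀
    have h2 := congrFun h p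
    have h3 : Q P t p ≠ p := Q_ne P hP p t ht
    simp only [Pi.add_apply, Pi.smul_apply, smul_eq_mul, Pi.zero_apply, mul_one] at h1 h2
    rw [if_neg h3, mul_zero, add_zero] at h2
    rw [if_pos hp.symm, h2, mul_one, zero_add] at h1
    exact ⟨h2, h1⟩
  let u' : Fin 2 → W P t := fun i => ⟨u i, hu i⟩
  have hli' : LinearIndependent ℝ u' := by
    apply LinearIndependent.of_comp (W P t).subtype
    exact hli
  have := hli'.fintype_card_le_finrank
  simpa using this

/-- contract `m ≠ n` visits party `n` exactly once before the last day -/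
lemma visits (n m : Fin N) : ∑ t ∈ range (N - 1), (if Q P t m = n then (1 : ℝ) else 0) =
    if m = n then 0 else 1 := by
  have hN : 0 < N := by
    have := n.2
    omega
  by_cases hmn : m = n
  · rw [if_pos hmn]
    apply Finset.sum_eq_zero
    intro t ht
    rw [mem_range] at ht
    apply if_neg
    rw [hmn]
    exact Q_ne P hP n t (by omega)
  · rw [if_neg hmn]
    obtain ⟨d, hd⟩ : ∃ d, P m d = n := (P m).surjective n
    have hd1 : (d : ℕ) < N - 1 := by
      by_contra hcon
      have hd2 : (d : ℕ) = N - 1 := by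
        have := d.2
        omega
      exact hmn ((hP m d hd2).symm.trans hd)
    rw [Finset.sum_eq_single (d : ℕ)]
    · apply if_pos
      unfold Q
      rw [dif_pos d.2]
      exact hd
    · intro t ht htd
      rw [mem_range] at ht
      apply if_neg
      unfold Q
      rw [dif_pos (by omega)]
      intro h
      have := (P m).injective (h.trans hd.symm)
      exact htd (congrArg Fin.val this)
    · intro h
      exact absurd (mem_range.2 hd1) h

lemma V_top (hN : 2 ≤ N) : V P (N - 2) = ⊤ := by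
  have hone : (fun _ => 1 : Fin N → ℝ) ∈ V P (N - 2) :=
    W_le_V P (Nat.zero_le _) ((mem_Wf _ _).2 ⟨fun _ => 1, rfl⟩)
  have hsum : ∀ n : Fin N, (fun m : Fin N => if m = n then (0 : ℝ) else 1) ∈ V P (N - 2) := by
    intro n
    have h1 : (fun m : Fin N => if m = n then (0 : ℝ) else 1) =
        ∑ t ∈ range (N - 1), (fun m : Fin N => if Q P t m = n then (1 : ℝ) else 0) := by
      funext m
      rw [Finset.sum_apply]
      exact (visits P hP n m).symm
    rw [h1]
    apply Submodule.sum_mem
    intro t ht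
    rw [mem_range] at ht
    exact W_le_V P (by omega) ((mem_Wf _ _).2 ⟨fun b => if b = n then 1 else 0, rfl⟩)
  rw [eq_top_iff]
  intro v _
  have hv : v = ∑ n : Fin N, v n • ((fun _ => 1 : Fin N → ℝ) -
      (fun m : Fin N => if m = n then (0 : ℝ) else 1)) := by
    funext m
    rw [Finset.sum_apply, Finset.sum_eq_single m]
    · simp
    · intro n _ hn
      simp [hn.symm]
    · intro h
      exact absurd (Finset.mem_univ m) h
  rw [hv]
  apply Submodule.sum_mem
  intro n _
  exact Submodule.smul_mem _ _ (Submodule.sub_mem _ hone (hsum n))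

lemma last_day (hN : 2 ≤ N) : N ≤ c P (N - 2) := by
  unfold c
  have h1 : Function.Injective (fun n : Fin N => (Q P (N - 2) n, Q P (N - 2 + 1) n)) := by
    intro n m h
    have h2 := congrArg Prod.snd h
    simp only at h2
    have h3 : ∀ n : Fin N, Q P (N - 2 + 1) n = n := by
      intro n
      unfold Q
      rw [dif_pos (by omega)]
      exact hP n _ (by simp only; omega)
    rw [h3, h3] at h2
    exact h2
  rw [Finset.card_image_of_injective _ h1]
  simp

theorem lower (hN : 2 ≤ N) : 4 * N - 6 ≤ cost P := by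
  rw [cost_eq]
  have h1 : N - 1 = (N - 2) + 1 := by omega
  rw [h1, Finset.sum_range_succ]
  have h2 := last_day P hP hN
  have h3 := sum_step P (N - 2)
  rw [V_top P hP hN, finrank_top, Module.finrank_fintype_fun_eq_card, Fintype.card_fin] at h3
  rcases Nat.lt_or_ge N 3 with h | h
  · omega
  · obtain ⟨k, hk⟩ : ∃ k, N - 2 = k + 1 := ⟨N - 3, by omega⟩
    rw [hk, Finset.sum_range_succ' (fun s => Module.finrank ℝ (W P s))] at h3
    have h4 : 2 * k ≤ ∑ s ∈ range k, Module.finrank ℝ (W P (s + 1)) := by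
      have : ∑ s ∈ range k, 2 ≤ ∑ s ∈ range k, Module.finrank ℝ (W P (s + 1)) := by
        apply Finset.sum_le_sum
        intro s hs
        rw [mem_range] at hs
        exact W_two P hP (s + 1) (by omega)
      simpa [mul_comm] using this
    rw [hk]
    rw [hk] at h2
    omega

end

/-! ### The upper bound -/

/-- position of contract `n` on day `d` in the protocol `(0, 1, …, n - 1, n + 1, …, N - 1, n)` -/
def sg (N n d : ℕ) : ℕ := if d = N - 1 then n else if d < n then d else d + 1

lemma sg_lt {N n d : ℕ} (hn : n < N) (hd : d < N) : sg N n d < N := by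
  unfold sg
  split_ifs <;> omega

lemma sg_inj {N n d d' : ℕ} (h : sg N n d = sg N n d') (hd : d < N) (hd' : d' < N) :
    d = d' := by
  unfold sg at h
  split_ifs at h <;> omega

/-- The protocol `P_n = (0, 1, …, n - 1, n + 1, …, N - 1, n)`. -/
noncomputable def prot (N : ℕ) (n : Fin N) : Equiv.Perm (Fin N) :=
  Equiv.ofBijective (fun d : Fin N => ⟨sg N n d, sg_lt n.2 d.2⟩) (by
    apply Finite.injective_iff_bijective.1
    intro d d' h
    exact Fin.ext (sg_inj (congrArg Fin.val h) d.2 d'.2))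

lemma prot_fast (N : ℕ) : IsFast (prot N) := by
  intro n d hd
  apply Fin.ext
  show sg N n d = n
  unfold sg
  rw [if_pos hd]

lemma Q_prot {N : ℕ} (t : ℕ) (ht : t < N) (n : Fin N) : ((Q (prot N) t n : Fin N) : ℕ) =
    sg N n t := by
  unfold Q
  rw [dif_pos ht]
  rfl

theorem upper {N : ℕ} (hN : 2 ≤ N) : cost (prot N) ≤ 4 * N - 6 := by
  classical
  rw [cost_eq]
  have h1 : N - 1 = (N - 2) + 1 := by omega
  rw [h1, Finset.sum_range_succ]
  have h2 : c (prot N) (N - 2) ≤ N := by
    unfold c
    exact Finset.card_image_le.trans (by simp)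
  have h3 : ∑ t ∈ range (N - 2), c (prot N) t ≤ 3 * (N - 2) := by
    have : ∑ t ∈ range (N - 2), c (prot N) t ≤ ∑ t ∈ range (N - 2), 3 := by
      apply Finset.sum_le_sum
      intro t ht
      rw [mem_range] at ht
      unfold c
      let φ : Fin N × Fin N → ℕ × ℕ := fun p => ((p.1 : ℕ), (p.2 : ℕ))
      have hφ : Function.Injective φ := by
        intro p q h
        exact Prod.ext (Fin.ext (congrArg Prod.fst h)) (Fin.ext (congrArg Prod.snd h))
      rw [← Finset.card_image_of_injective _ hφ, Finset.image_image]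
      have h4 : univ.image (φ ∘ fun n : Fin N => (Q (prot N) t n, Q (prot N) (t + 1) n)) ⊆
          {(t, t + 1), (t, t + 2), (t + 1, t + 2)} := by
        intro p hp
        obtain ⟨n, _, rfl⟩ := Finset.mem_image.1 hp
        simp only [Function.comp, φ]
        rw [Q_prot t (by omega), Q_prot (t + 1) (by omega)]
        simp only [mem_insert, mem_singleton, Prod.mk.injEq]
        unfold sg
        split_ifs <;> omega
      refine (Finset.card_le_card h4).trans ?_
      exact Finset.card_le_three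
    simpa [mul_comm] using this
  omega

/-- **The minimum cost of a fast contract-signing protocol.** For every `N ≥ 2`, `4 N - 6` is the
least cost of a fast protocol for `N` parties: `CFP(N) = 4 N - 6`. -/
theorem result (N : ℕ) (hN : 2 ≤ N) :
    IsLeast {c : ℕ | ∃ P : Fin N → Equiv.Perm (Fin N), IsFast P ∧ cost P = c} (4 * N - 6) ∧
      CFP N = 4 * N - 6 := by
  have h : IsLeast {c : ℕ | ∃ P : Fin N → Equiv.Perm (Fin N), IsFast P ∧ cost P = c}
      (4 * N - 6) := by
    refine ⟨⟨prot N, prot_fast N, ?_⟩, ?_⟩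
    · exact le_antisymm (upper hN) (lower (prot N) (prot_fast N) hN)
    · rintro c ⟨P, hP, rfl⟩
      exact lower P hP hN
  exact ⟨h, h.csInf_eq⟩

end Pool.Agent.Results.MP_6fb3b3_lc.MinimumCost
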